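import Pool.Agent.W787.PS.StmA

/-!
# Project PS: reverse Jensen inequality at unit scale
-/

open MeasureTheory Set Metric Filter Topology

noncomputable section

namespace Pool.Agent.W787.PS

lemma rj_fderiv_norm {g : ℂ → ℝ} {x : ℂ} {C₀ : ℝ} (hC : 0 ≤ C₀) (h : nsq g x ≤ C₀ ^ 2) :
    ‖fderiv ℝ g x‖ ≤ C₀ := by
  refine ContinuousLinearMap.opNorm_le_bound _ hC (fun v => ?_)
  have hv : fderiv ℝ g x v = v.re * fderiv ℝ g x 1 + v.im * fderiv ℝ g x Complex.I := by
    have h1 : v = (v.re : ℝ) • (1 : ℂ) + (v.im : ℝ) • Complex.I := by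
      apply Complex.ext <;> simp
    conv_lhs => rw [h1]
    rw [map_add, map_smul, map_smul]
    simp
  rw [hv, Real.norm_eq_abs]
  have hn : ‖v‖ ^ 2 = v.re ^ 2 + v.im ^ 2 := by
    rw [Complex.sq_norm, Complex.normSq_apply]; ring
  have hb : 0 ≤ C₀ * ‖v‖ := mul_nonneg hC (norm_nonneg _)
  apply abs_le_of_sq_le_sq' _ hb |> abs_le.mpr
  unfold nsq at h
  set a := fderiv ℝ g x 1
  set b := fderiv ℝ g x Complex.I
  have h2 : (C₀ * ‖v‖) ^ 2 = C₀ ^ 2 * (v.re ^ 2 + v.im ^ 2) := by rw [mul_pow, hn]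
  rw [h2]
  have h3 : (v.re * a + v.im * b) ^ 2 ≤ (a ^ 2 + b ^ 2) * (v.re ^ 2 + v.im ^ 2) := by
    nlinarith [sq_nonneg (v.re * b - v.im * a)]
  refine h3.trans ?_
  exact mul_le_mul_of_nonneg_right h (by positivity)

lemma rj_g {g : ℂ → ℝ} {C₀ : ℝ} (hC : 0 ≤ C₀) (hg : ContDiffOn ℝ 1 g (ball 0 4))
    (h : ∀ x ∈ ball (0 : ℂ) 4, nsq g x ≤ C₀ ^ 2) {x : ℂ} (hx : x ∈ ball (0 : ℂ) 1) :
    |g x - g 0| ≤ C₀ := by
  have hsub : ball (0 : ℂ) 1 ⊆ ball (0 : ℂ) 4 := ball_subset_ball (by norm_num)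
  have hd : ∀ y ∈ ball (0 : ℂ) 1, DifferentiableAt ℝ g y := fun y hy =>
    (hg.contDiffAt (isOpen_ball.mem_nhds (hsub hy))).differentiableAt (by norm_num)
  have := (convex_ball (0 : ℂ) 1).norm_image_sub_le_of_norm_fderiv_le (𝕜 := ℝ) hd
    (fun y hy => rj_fderiv_norm hC (h y (hsub hy))) (mem_ball_self one_pos) hx
  rw [Real.norm_eq_abs, sub_zero] at this
  refine this.trans ?_
  have hx1 : ‖x‖ ≤ 1 := by
    have := mem_ball_zero_iff.mp hx
    exact this.le
  nlinarith [norm_nonneg x]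

/-- The far part. -/
lemma rj_far {ρ : ℂ → ℝ} {Λ : ℝ} (hρc : Continuous ρ) (hρs : HasCompactSupport ρ)
    (hρ : ∀ x, 0 ≤ ρ x) (hm : ∫ x, ρ x ≤ Λ) (h3 : S_POTI) {x : ℂ} (hx : x ∈ ball (0 : ℂ) 1) :
    |(pot ρ x - -(1 / (2 * Real.pi)) * ∫ y in ball (0 : ℂ) 4, Real.log ‖x - y‖ * ρ y)
      - (pot ρ 0 - -(1 / (2 * Real.pi)) * ∫ y in ball (0 : ℂ) 4, Real.log ‖0 - y‖ * ρ y)| ≤ Λ := by
  have hi := (h3 ρ hρc hρs).1
  have key : ∀ z : ℂ, pot ρ z - -(1 / (2 * Real.pi)) * ∫ y in ball (0 : ℂ) 4,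
      Real.log ‖z - y‖ * ρ y
      = -(1 / (2 * Real.pi)) * ∫ y in (ball (0 : ℂ) 4)ᶜ, Real.log ‖z - y‖ * ρ y := by
    intro z
    unfold pot
    rw [← integral_add_compl measurableSet_ball (hi z)]
    ring
  rw [key x, key 0, ← mul_sub, ← integral_sub (hi x).integrableOn (hi 0).integrableOn]
  have hρi : Integrable ρ := hρc.integrable_of_hasCompactSupport hρs
  have hx1 : ‖x‖ < 1 := mem_ball_zero_iff.mp hx
  have hbd : ‖∫ y in (ball (0 : ℂ) 4)ᶜ, (Real.log ‖x - y‖ * ρ y - Real.log ‖0 - y‖ * ρ y)‖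
      ≤ ∫ y in (ball (0 : ℂ) 4)ᶜ, ρ y := by
    refine norm_integral_le_of_norm_le hρi.integrableOn ?_
    refine (ae_restrict_iff' measurableSet_ball.compl).mpr (Filter.Eventually.of_forall ?_)
    intro y hy
    have hy4 : 4 ≤ ‖y‖ := by
      have := hy
      rw [mem_compl_iff, mem_ball_zero_iff, not_lt] at this
      exact this
    rw [zero_sub, norm_neg, ← sub_mul, Real.norm_eq_abs, abs_mul, abs_of_nonneg (hρ y)]
    have hxy1 : ‖y‖ - 1 ≤ ‖x - y‖ := by
      have := norm_sub_norm_le y x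
      rw [norm_sub_rev] at this
      linarith
    have hxy2 : ‖x - y‖ ≤ ‖y‖ + 1 := by
      have := norm_sub_le x y
      linarith
    have hpos : 0 < ‖x - y‖ := by linarith
    have hypos : 0 < ‖y‖ := by linarith
    have hlog : |Real.log ‖x - y‖ - Real.log ‖y‖| ≤ 1 := by
      rw [← Real.log_div hpos.ne' hypos.ne', abs_le]
      have hr : 0 < ‖x - y‖ / ‖y‖ := div_pos hpos hypos
      have hr1 : ‖x - y‖ / ‖y‖ ≤ 2 := by
        rw [div_le_iff₀ hypos]; linarith
      have hr2 : 1 / 2 ≤ ‖x - y‖ / ‖y‖ := by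
        rw [le_div_iff₀ hypos]; linarith
      constructor
      · have := Real.one_sub_inv_le_log_of_pos hr
        have h2 : (‖x - y‖ / ‖y‖)⁻¹ ≤ 2 := by
          rw [inv_le_comm₀ hr (by norm_num)]
          linarith
        linarith
      · have := Real.log_le_sub_one_of_pos hr
        linarith
    nlinarith [hρ y]
  have hle : ∫ y in (ball (0 : ℂ) 4)ᶜ, ρ y ≤ Λ :=
    (setIntegral_le_integral hρi (Filter.Eventually.of_forall hρ)).trans hm
  rw [abs_mul, abs_neg, abs_of_pos (by positivity : (0 : ℝ) < 1 / (2 * Real.pi))]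
  rw [Real.norm_eq_abs] at hbd
  have h0 : 0 ≤ ∫ y in (ball (0 : ℂ) 4)ᶜ, ρ y := setIntegral_nonneg measurableSet_ball.compl
    (fun y _ => hρ y)
  have hpi : 1 / (2 * Real.pi) ≤ 1 := by
    rw [div_le_one (by positivity)]
    linarith [Real.pi_gt_three]
  have hΛ : 0 ≤ Λ := h0.trans hle
  calc 1 / (2 * Real.pi) * |∫ y in (ball (0 : ℂ) 4)ᶜ,
        (Real.log ‖x - y‖ * ρ y - Real.log ‖0 - y‖ * ρ y)|
      ≤ 1 * Λ := mul_le_mul hpi (hbd.trans hle) (abs_nonneg _) (by norm_num)
    _ = Λ := one_mul _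

/-- Lower bound of the near part. -/
lemma rj_near {ρ : ℂ → ℝ} {τ : ℝ} (hρc : Continuous ρ) (hρs : HasCompactSupport ρ)
    (hρ : ∀ x, 0 ≤ ρ x) (hm : ms ρ 0 4 ≤ τ) (h3 : S_POTI) {x : ℂ} (hx : x ∈ ball (0 : ℂ) 1) :
    -(τ / (2 * Real.pi) * Real.log 5) ≤
      -(1 / (2 * Real.pi)) * ∫ y in ball (0 : ℂ) 4, Real.log ‖x - y‖ * ρ y := by
  have hi := (h3 ρ hρc hρs).1
  have hρi : Integrable ρ := hρc.integrable_of_hasCompactSupport hρs
  have hx1 : ‖x‖ < 1 := mem_ball_zero_iff.mp hx
  have hl5 : 0 < Real.log 5 := Real.log_pos (by norm_num)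
  have hb : ∫ y in ball (0 : ℂ) 4, Real.log ‖x - y‖ * ρ y ≤ Real.log 5 * τ := by
    calc ∫ y in ball (0 : ℂ) 4, Real.log ‖x - y‖ * ρ y
        ≤ ∫ y in ball (0 : ℂ) 4, Real.log 5 * ρ y := by
          refine setIntegral_mono_on (hi x).integrableOn (hρi.const_mul _).integrableOn
            measurableSet_ball (fun y hy => ?_)
          have hy4 : ‖y‖ < 4 := mem_ball_zero_iff.mp hy
          have hxy : ‖x - y‖ ≤ 5 := by
            have := norm_sub_le x y
            linarith
          refine mul_le_mul_of_nonneg_right ?_ (hρ y)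
          rcases (norm_nonneg (x - y)).eq_or_lt with h0 | h0
          · rw [← h0, Real.log_zero]; exact hl5.le
          · exact Real.log_le_log h0 hxy
      _ = Real.log 5 * ms ρ 0 4 := by
          rw [integral_const_mul]; rfl
      _ ≤ Real.log 5 * τ := mul_le_mul_of_nonneg_left hm hl5.le
  have hp : 0 < 1 / (2 * Real.pi) := by positivity
  have := mul_le_mul_of_nonneg_left hb hp.le
  have e : τ / (2 * Real.pi) * Real.log 5 = 1 / (2 * Real.pi) * (Real.log 5 * τ) := by ring
  rw [e]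
  linarith

/-- Measurability of the near part. -/
lemma rj_meas {ρ : ℂ → ℝ} (hρc : Continuous ρ) :
    StronglyMeasurable (fun x : ℂ => ∫ y in ball (0 : ℂ) 4, Real.log ‖x - y‖ * ρ y) := by
  have : StronglyMeasurable (Function.uncurry fun (x y : ℂ) => Real.log ‖x - y‖ * ρ y) := by
    apply Measurable.stronglyMeasurable
    exact ((Real.measurable_log.comp ((measurable_fst.sub measurable_snd).norm)).mul
      (hρc.measurable.comp measurable_snd))
  exact this.integral_prod_right

theorem rj (h1 : S_W1) (h2 : S_BMJ) (h3 : S_POTI) : S_RJ := by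
  intro τ q Λ C₀ hτ hq hqτ hΛ hC₀
  have hπ := Real.pi_pos
  have hq0 : 0 < q := by linarith
  -- choice of s
  obtain ⟨s, hs1, hs2⟩ : ∃ s : ℝ, 1 < s ∧ q * s * τ < 4 * Real.pi := by
    have hqt : 0 < q * τ := mul_pos hq0 hτ
    obtain ⟨s, hs⟩ := exists_between ((one_lt_div hqt).mpr hqτ)
    refine ⟨s, hs.1, ?_⟩
    have := (lt_div_iff₀ hqt).mp hs.2
    calc q * s * τ = s * (q * τ) := by ring
      _ < 4 * Real.pi := this
  have hs0 : 0 < s := by linarith
  set s' : ℝ := s / (s - 1) with hs'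
  have hs'0 : 0 < s' := div_pos hs0 (by linarith)
  obtain ⟨ε, C1, hε, hC1, hW⟩ := h1 (q * s') (by positivity)
  obtain ⟨C2, hC2, hB⟩ := h2 (q * s * τ / (2 * Real.pi)) (by positivity)
    (by rw [div_lt_iff₀ (by positivity)]; linarith)
  refine ⟨ε, Real.exp (q * (τ / (2 * Real.pi) * Real.log 5 + 2 * (Λ + C₀))) * (C2 + C1), hε,
    by positivity, ?_⟩
  intro ρ g w hD hms
  have hρc : Continuous ρ := hD.diff.continuous
  have hρs := hD.supp
  have hρ0 := hD.nonneg
  have hsub : ball (0 : ℂ) 1 ⊆ ball (0 : ℂ) 4 := ball_subset_ball (by norm_num)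
  have hsub' : closedBall (0 : ℂ) 1 ⊆ ball (0 : ℂ) 4 := closedBall_subset_ball (by norm_num)
  have hcb : ball (0 : ℂ) 1 ⊆ closedBall (0 : ℂ) 1 := ball_subset_closedBall
  obtain ⟨hpi, hpc⟩ := h3 ρ hρc hρs
  set near : ℂ → ℝ := fun x => -(1 / (2 * Real.pi)) * ∫ y in ball (0 : ℂ) 4,
    Real.log ‖x - y‖ * ρ y with hnear
  set far : ℂ → ℝ := fun x => pot ρ x - near x with hfar
  have hfarb : ∀ x ∈ ball (0 : ℂ) 1, |far x - far 0| ≤ Λ := fun x hx =>
    rj_far hρc hρs hρ0 hD.mass h3 hx
  have hnearb : ∀ x ∈ ball (0 : ℂ) 1, -(τ / (2 * Real.pi) * Real.log 5) ≤ near x := fun x hx =>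
    rj_near hρc hρs hρ0 hms h3 hx
  have hgb : ∀ x ∈ ball (0 : ℂ) 1, |g x - g 0| ≤ C₀ := fun x hx => rj_g hC₀ hD.g_diff hD.g_grad hx
  set wb : ℝ := avg w 0 1 with hwb
  set c : ℝ := far 0 + g 0 + wb with hc
  have hpos : ∀ x ∈ ball (0 : ℂ) 4, 0 < ρ x := fun x hx => by
    rw [hD.eq x hx]; exact Real.exp_pos _
  have hlog : ∀ x ∈ ball (0 : ℂ) 1, Real.log (ρ x)
      = c + near x + ((far x - far 0) + (g x - g 0)) + (w x - wb) := by
    intro x hx
    have hpn : pot ρ x = near x + far x := by rw [hfar]; ring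
    rw [hD.eq x (hsub hx), Real.log_exp, hpn, hc]
    ring
  -- continuity and integrability
  have hwc : ContinuousOn w (closedBall (0 : ℂ) 1) := hD.w_diff.continuousOn.mono hsub'
  have hwi : IntegrableOn w (ball (0 : ℂ) 1) :=
    (hwc.integrableOn_compact (isCompact_closedBall _ _)).mono_set hcb
  have hlc : ContinuousOn (fun x => Real.log (ρ x)) (closedBall (0 : ℂ) 1) :=
    hρc.continuousOn.log (fun x hx => (hpos x (hsub' hx)).ne')
  have hli : IntegrableOn (fun x => Real.log (ρ x)) (ball (0 : ℂ) 1) :=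
    (hlc.integrableOn_compact (isCompact_closedBall _ _)).mono_set hcb
  have hvol : volume.real (ball (0 : ℂ) 1) = Real.pi := by
    simp [Measure.real, Complex.volume_ball]
  have hvolne : volume (ball (0 : ℂ) 1) ≠ ⊤ := measure_ball_lt_top.ne
  have havg : ∀ f : ℂ → ℝ, avg f 0 1 = Real.pi⁻¹ * ∫ x in ball (0 : ℂ) 1, f x := by
    intro f; unfold avg; simp
  have hconst : ∀ k : ℝ, ∫ _x in ball (0 : ℂ) 1, k = Real.pi * k := by
    intro k
    rw [setIntegral_const, hvol, smul_eq_mul]
  -- lower bound of the average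
  set K : ℝ := τ / (2 * Real.pi) * Real.log 5 with hK
  have hlow : c - K - (Λ + C₀) ≤ avg (fun x => Real.log (ρ x)) 0 1 := by
    have hint : ∫ x in ball (0 : ℂ) 1, (c - K - (Λ + C₀) + (w x - wb))
        ≤ ∫ x in ball (0 : ℂ) 1, Real.log (ρ x) := by
      refine setIntegral_mono_on ?_ hli measurableSet_ball ?_
      · exact (integrableOn_const (by exact hvolne) (by simp)).add
          (hwi.sub (integrableOn_const (by exact hvolne) (by simp)))
      · intro x hx
        rw [hlog x hx]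
        have a1 := hfarb x hx
        have a2 := hgb x hx
        have a3 := hnearb x hx
        rw [abs_le] at a1 a2
        linarith [a1.1, a2.1]
    have hcomp : ∫ x in ball (0 : ℂ) 1, (c - K - (Λ + C₀) + (w x - wb))
        = Real.pi * (c - K - (Λ + C₀)) := by
      have i1 : IntegrableOn (fun _ : ℂ => c - K - (Λ + C₀)) (ball (0 : ℂ) 1) :=
        integrableOn_const hvolne (by simp)
      have i2 : IntegrableOn (fun _ : ℂ => wb) (ball (0 : ℂ) 1) :=
        integrableOn_const hvolne (by simp)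
      have i3 : IntegrableOn (fun x => w x - wb) (ball (0 : ℂ) 1) := hwi.sub i2
      rw [integral_add i1 i3, integral_sub hwi i2, hconst, hconst]
      have : ∫ x in ball (0 : ℂ) 1, w x = Real.pi * wb := by
        rw [hwb, havg, ← mul_assoc, mul_inv_cancel₀ hπ.ne', one_mul]
      rw [this]; ring
    rw [hcomp] at hint
    rw [havg]
    have := mul_le_mul_of_nonneg_left hint (inv_nonneg.mpr hπ.le)
    rwa [← mul_assoc, inv_mul_cancel₀ hπ.ne', one_mul] at this
  -- pointwise upper bound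
  have hup : ∀ x ∈ ball (0 : ℂ) 1, ρ x ^ q ≤ Real.exp (q * (c + (Λ + C₀))) *
      (Real.exp (q * s * near x) + Real.exp (q * s' * |w x - wb|)) := by
    intro x hx
    rw [Real.rpow_def_of_pos (hpos x (hsub hx)), hlog x hx]
    have a1 := hfarb x hx
    have a2 := hgb x hx
    rw [abs_le] at a1 a2
    have a4 := le_abs_self (w x - wb)
    have step1 : (c + near x + (far x - far 0 + (g x - g 0)) + (w x - wb)) * q
        ≤ q * (c + (Λ + C₀)) + (q * near x + q * |w x - wb|) := by
      have : (c + near x + (far x - far 0 + (g x - g 0)) + (w x - wb))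
          ≤ (c + (Λ + C₀)) + (near x + |w x - wb|) := by linarith [a1.2, a2.2]
      have := mul_le_mul_of_nonneg_left this hq0.le
      linarith
    refine (Real.exp_le_exp.mpr step1).trans ?_
    rw [Real.exp_add]
    refine mul_le_mul_of_nonneg_left ?_ (Real.exp_pos _).le
    -- Young
    set u := q * near x with hu
    set v := q * |w x - wb| with hv
    have e1 : q * s * near x = s * u := by rw [hu]; ring
    have e2 : q * s' * |w x - wb| = s' * v := by rw [hv]; ring
    rw [e1, e2]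
    have hv0 : 0 ≤ v := mul_nonneg hq0.le (abs_nonneg _)
    have hsm : 0 < s - 1 := by linarith
    rcases le_total (u + v) (s * u) with h | h
    · exact (Real.exp_le_exp.mpr h).trans (le_add_of_nonneg_right (Real.exp_pos _).le)
    · have h' : u + v ≤ s' * v := by
        have : (s - 1) * u ≤ v := by linarith
        have h5 : s' * v - v = v / (s - 1) := by
          rw [hs']; field_simp; ring
        have h6 : u ≤ v / (s - 1) := by
          rw [le_div_iff₀ hsm]; linarith
        linarith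
      exact (Real.exp_le_exp.mpr h').trans (le_add_of_nonneg_left (Real.exp_pos _).le)
  -- integrability of the majorant
  have hnm : StronglyMeasurable near := (rj_meas hρc).const_mul _
  have hI1 : IntegrableOn (fun x => Real.exp (q * s * near x)) (ball (0 : ℂ) 1) := by
    obtain ⟨M, hM⟩ := (isCompact_closedBall (0 : ℂ) 1).exists_bound_of_continuousOn
      hpc.continuousOn
    refine IntegrableOn.of_bound (C := Real.exp (q * s * (M + (|far 0| + Λ))))
      (lt_top_iff_ne_top.mpr hvolne) ?_ ?_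
    · exact (Real.continuous_exp.comp_stronglyMeasurable
        (hnm.const_mul (q * s))).aestronglyMeasurable
    · refine (ae_restrict_iff' measurableSet_ball).mpr (Filter.Eventually.of_forall ?_)
      intro x hx
      rw [Real.norm_eq_abs, Real.abs_exp]
      refine Real.exp_le_exp.mpr ?_
      refine mul_le_mul_of_nonneg_left ?_ (by positivity)
      have b1 := hM x (hcb hx)
      rw [Real.norm_eq_abs] at b1
      have b2 := hfarb x hx
      have b3 : near x = pot ρ x - far x := by rw [hfar]; ring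
      rw [b3]
      have b4 := le_abs_self (pot ρ x)
      have b5 := neg_abs_le (far 0)
      rw [abs_le] at b2
      linarith [b2.1]
  have hI2 : IntegrableOn (fun x => Real.exp (q * s' * |w x - wb|)) (ball (0 : ℂ) 1) := by
    have : ContinuousOn (fun x => Real.exp (q * s' * |w x - wb|)) (closedBall (0 : ℂ) 1) :=
      Real.continuous_exp.comp_continuousOn
        (continuousOn_const.mul ((hwc.sub continuousOn_const).abs))
    exact (this.integrableOn_compact (isCompact_closedBall _ _)).mono_set hcb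
  have hI0 : IntegrableOn (fun x => ρ x ^ q) (ball (0 : ℂ) 1) := by
    have : Continuous (fun x => ρ x ^ q) := hρc.rpow_const (fun x => Or.inr hq0.le)
    exact (this.continuousOn.integrableOn_compact (isCompact_closedBall (0 : ℂ) 1)).mono_set hcb
  have hmain : ∫ x in ball (0 : ℂ) 1, ρ x ^ q ≤ Real.exp (q * (c + (Λ + C₀))) * (C2 + C1) := by
    calc ∫ x in ball (0 : ℂ) 1, ρ x ^ q
        ≤ ∫ x in ball (0 : ℂ) 1, Real.exp (q * (c + (Λ + C₀))) *
          (Real.exp (q * s * near x) + Real.exp (q * s' * |w x - wb|)) :=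
          setIntegral_mono_on hI0 ((hI1.add hI2).const_mul _) measurableSet_ball hup
      _ = Real.exp (q * (c + (Λ + C₀))) * ((∫ x in ball (0 : ℂ) 1, Real.exp (q * s * near x)) +
          ∫ x in ball (0 : ℂ) 1, Real.exp (q * s' * |w x - wb|)) := by
          rw [integral_const_mul, integral_add hI1 hI2]
      _ ≤ Real.exp (q * (c + (Λ + C₀))) * (C2 + C1) := by
          refine mul_le_mul_of_nonneg_left (add_le_add ?_ ?_) (Real.exp_pos _).le
          · have := hB ρ (q * s) (by positivity) hρc hρ0 (by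
              have : q * s * ms ρ 0 4 ≤ q * s * τ :=
                mul_le_mul_of_nonneg_left hms (by positivity)
              refine this.trans (le_of_eq ?_)
              field_simp)
            refine le_trans (le_of_eq ?_) this
            congr 1
            ext x
            rw [hnear]
            congr 1
            ring
          · exact hW w hD.w_diff hD.w_int hD.w_en
  refine hmain.trans ?_
  have : Real.exp (q * (c + (Λ + C₀))) ≤ Real.exp (q * (K + 2 * (Λ + C₀))) *
      Real.exp (q * avg (fun x => Real.log (ρ x)) 0 1) := by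
    rw [← Real.exp_add]
    refine Real.exp_le_exp.mpr ?_
    have := mul_le_mul_of_nonneg_left hlow hq0.le
    nlinarith
  calc Real.exp (q * (c + (Λ + C₀))) * (C2 + C1)
      ≤ (Real.exp (q * (K + 2 * (Λ + C₀))) *
      Real.exp (q * avg (fun x => Real.log (ρ x)) 0 1)) * (C2 + C1) :=
        mul_le_mul_of_nonneg_right this (by positivity)
    _ = _ := by ring

end Pool.Agent.W787.PS
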